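import Pool.Agent.K3h75.TO.Stm2
import Pool.Agent.K3h75.TO.Frm

/-!
# FIXZ: the zeros of the leading form lie over the fixed points

Brick of the project of helper75 (regular proper models of algebraic tori).
-/

set_option autoImplicit false
set_option linter.unusedSectionVars false
set_option linter.overlappingInstances false

namespace Pool.Agent.K3h8.FixZ

open Pool.Agent.Y223.G Pool.Agent.W418.LU2 MvPolynomial Module Pool.Agent.K3h75.TO

section mono

variable {Λ O : Type} [AddCommGroup Λ] [CommRing O] {n : ℕ} (b : Basis (Fin n) ℤ Λ)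

/-- Nonnegative coordinates. -/
def Nn (a : Λ) : Prop := ∀ i, 0 ≤ b.repr a i

variable {b}

lemma Nn.add {a c : Λ} (ha : Nn b a) (hc : Nn b c) : Nn b (a + c) := by
  intro i
  rw [map_add, Finsupp.add_apply]
  exact add_nonneg (ha i) (hc i)

lemma Nn.zero : Nn b (0 : Λ) := by
  intro i
  rw [map_zero, Finsupp.zero_apply]

lemma ps_add {a c : Λ} (ha : Nn b a) (hc : Nn b c) : ps b (a + c) = ps b a + ps b c := by
  ext i
  unfold ps
  simp only [Finsupp.mapRange_apply, Finsupp.add_apply, map_add]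
  exact Int.toNat_add (ha i) (hc i)

lemma mn_zero : mn O b 0 = 1 := by
  unfold mn ps
  rw [map_zero, Finsupp.mapRange_zero]
  rfl

lemma mn_add {a c : Λ} (ha : Nn b a) (hc : Nn b c) : mn O b (a + c) = mn O b a * mn O b c := by
  unfold mn
  rw [monomial_mul, one_mul, ps_add ha hc]

lemma Nn.sum {s : Finset ℕ} {f : ℕ → Λ} (h : ∀ k ∈ s, Nn b (f k)) : Nn b (∑ k ∈ s, f k) := by
  classical
  induction s using Finset.induction_on with
  | empty => exact Nn.zero
  | insert a s ha ih =>
    rw [Finset.sum_insert ha]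
    exact (h a (Finset.mem_insert_self _ _)).add
      (ih fun k hk => h k (Finset.mem_insert_of_mem hk))

lemma mn_sum {s : Finset ℕ} {f : ℕ → Λ} (h : ∀ k ∈ s, Nn b (f k)) :
    mn O b (∑ k ∈ s, f k) = ∏ k ∈ s, mn O b (f k) := by
  classical
  induction s using Finset.induction_on with
  | empty => exact mn_zero
  | insert a s ha ih =>
    rw [Finset.sum_insert ha, Finset.prod_insert ha, mn_add (h a (Finset.mem_insert_self _ _))
      (Nn.sum fun k hk => h k (Finset.mem_insert_of_mem hk)),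
      ih fun k hk => h k (Finset.mem_insert_of_mem hk)]

variable {K : Type} [Field K] [Algebra O K] {x : Λ → K}

lemma x_sum (h0 : x 0 = 1) (hadd : ∀ a c, x (a + c) = x a * x c) {ι : Type} (s : Finset ι)
    (f : ι → Λ) : x (∑ i ∈ s, f i) = ∏ i ∈ s, x (f i) := by
  classical
  induction s using Finset.induction_on with
  | empty => exact h0
  | insert a s ha ih => rw [Finset.sum_insert ha, Finset.prod_insert ha, hadd, ih]

lemma x_nsmul (h0 : x 0 = 1) (hadd : ∀ a c, x (a + c) = x a * x c) (k : ℕ) (a : Λ) :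
    x (k • a) = x a ^ k := by
  induction k with
  | zero => rw [zero_smul, h0, pow_zero]
  | succ k ih => rw [succ_nsmul, hadd, ih, pow_succ]

/-- The value of a monomial. -/
lemma ev_mn (h0 : x 0 = 1) (hadd : ∀ a c, x (a + c) = x a * x c) {a : Λ} (ha : Nn b a) :
    ev O b x (mn O b a) = x a := by
  unfold ev mn
  rw [aeval_monomial, map_one, one_mul]
  have h1 : a = ∑ i, (ps b a i) • b i := by
    conv_lhs => rw [← b.sum_repr a]
    refine Finset.sum_congr rfl fun i _ => ?_
    rw [← natCast_zsmul]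
    congr 1
    unfold ps
    rw [Finsupp.mapRange_apply]
    exact (Int.toNat_of_nonneg (ha i)).symm
  conv_rhs => rw [h1, x_sum h0 hadd]
  rw [Finsupp.prod_fintype]
  · exact Finset.prod_congr rfl fun i _ => (x_nsmul h0 hadd _ _).symm
  · intro i
    exact pow_zero _

/-- The chart homomorphism in degree zero of the Laurent polynomials. -/
noncomputable def evL (O : Type) {K : Type} [CommRing O] [Field K] [Algebra O K] {Λ : Type}
    [AddCommGroup Λ] {n : ℕ} (b : Basis (Fin n) ℤ Λ) (x : Λ → K) :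
    MvPolynomial (Fin n) O →ₐ[O] LP K := aeval fun i => hm 0 (x (b i))

lemma evL_eq (c : MvPolynomial (Fin n) O) : evL O b x c = hm 0 (ev O b x c) := by
  induction c using MvPolynomial.induction_on with
  | C e =>
    unfold evL ev
    rw [aeval_C, aeval_C, algebraMap_LP]
  | add f g hf hg => rw [map_add, map_add, hm_add, hf, hg]
  | mul_X f i hf =>
    rw [map_mul, map_mul, hf]
    unfold evL ev
    rw [aeval_X, aeval_X, hm_mul, zero_add]

end mono

lemma MQ_mul {O A : Type} [CommRing O] [CommRing A] [Algebra O A] {R : Subalgebra O A}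
    {Q : Ideal R} {f g : A} (hf : MQ R Q f) (hg : g ∈ R) : MQ R Q (g * f) := by
  obtain ⟨h, hf⟩ := hf
  exact ⟨R.mul_mem hg h, Q.mul_mem_left ⟨g, hg⟩ hf⟩

theorem t_FIXZ : S_FIXZ := by
  intro Λ O K _ _ _ _ _ _ x σ t τ p l 𝔓 hW n b P v hv hst hb hnn Q hQ hZ q hq
  have h0 := hW.zero
  have hadd := hW.add
  have hmem : ∀ c, evL O b x c ∈ WB x σ τ p l 𝔓 P (x v) := by
    intro c
    induction c using MvPolynomial.induction_on with
    | C e =>
      unfold evL
      rw [aeval_C]
      exact Subalgebra.algebraMap_mem _ _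
    | add f g hf hg => rw [map_add]; exact Subalgebra.add_mem _ hf hg
    | mul_X f i hf =>
      rw [map_mul]
      refine Subalgebra.mul_mem _ hf ?_
      unfold evL
      rw [aeval_X]
      have h1 := WB_x (x := x) (σ := σ) (τ := τ) (p := p) (l := l) (𝔓 := 𝔓) (s := x v) (hb i)
      rwa [hadd, mul_div_cancel_left₀ _ (hW.toChr.ne v)] at h1
  set φ : MvPolynomial (Fin n) O →ₐ[O] WB x σ τ p l 𝔓 P (x v) :=
    (evL O b x).codRestrict _ hmem with hφ
  have hq' : q = Ideal.comap φ Q := by
    ext c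
    rw [hq c, Ideal.mem_comap]
    constructor
    · rintro ⟨h1, h2⟩
      convert h2
      exact evL_eq c
    · intro h1
      refine ⟨?_, ?_⟩
      · rw [← evL_eq]; exact hmem c
      · convert h1
        exact (evL_eq c).symm
  have hprime : q.IsPrime := by
    rw [hq']
    exact Ideal.comap_isPrime φ Q
  have hC : ∀ e ∈ 𝔓, (C e : MvPolynomial (Fin n) O) ∈ q := by
    intro e he
    rw [hq]
    unfold ev
    rw [aeval_C]
    exact hZ.z1 e he
  refine ⟨hprime, hC, ?_⟩
  -- the quotient
  set D := MvPolynomial (Fin n) O ⧸ q with hD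
  have : IsDomain D := Ideal.Quotient.isDomain q
  set π : MvPolynomial (Fin n) O →+* D := Ideal.Quotient.mk q with hπ
  set χ : Λ → D := fun μ => π (mn O b (μ - v)) with hχ
  have hNn : ∀ μ ∈ P, Nn b (μ - v) := fun μ hμ i => hnn μ hμ i
  have hχv : χ v = 1 := by
    rw [hχ]
    simp only [sub_self]
    rw [mn_zero, map_one]
  have hxv := hW.toChr.ne v
  have key : ∀ μ ∈ P, χ (τ μ) = χ μ * χ (τ v) := by
    intro μ hμ
    rw [hχ]
    simp only
    rw [← map_mul, ← sub_eq_zero, ← map_sub, hπ, Ideal.Quotient.eq_zero_iff_mem, hq]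
    rw [map_sub, map_mul, ev_mn h0 hadd (hNn _ (hst _ hμ)), ev_mn h0 hadd (hNn _ hμ),
      ev_mn h0 hadd (hNn _ (hst _ hv))]
    have h1 := MQ_mul (hZ.z3 μ hμ) (Subalgebra.pow_mem _ (WB_T (x := x) (σ := σ) (τ := τ) (p := p)
      (l := l) (𝔓 := 𝔓) (P := P) (s := x v)) l)
    rw [hm_pow, hm_mul, one_pow, one_mul] at h1
    convert h1 using 2
    · ring
    · rw [hW.act, hW.act, hW.toChr.sub, hW.toChr.sub, hW.toChr.sub]
      field_simp
  have hp0 : (p : D) = 0 := by
    have h1 := hC _ hW.p_mem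
    have h2 : π (C (p : O)) = 0 := Ideal.Quotient.eq_zero_iff_mem.2 h1
    rw [map_natCast, map_natCast] at h2
    exact h2
  have : CharP D p := (CharP.charP_iff_prime_eq_zero hW.pp).2 hp0
  have : Fact p.Prime := ⟨hW.pp⟩
  have hit : ∀ k : ℕ, χ (τ^[k] v) = χ (τ v) ^ k := by
    intro k
    induction k with
    | zero => rw [pow_zero]; exact hχv
    | succ k ih =>
      rw [Function.iterate_succ_apply', key _ (P_iter hst k hv), ih, pow_succ]
  have hw : χ (τ v) = 1 := by
    have h1 := hit p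
    rw [hW.tp, hχv] at h1
    have h2 : (χ (τ v) - 1) ^ p = 0 := by
      rw [sub_pow_char, one_pow, ← h1, sub_self]
    have h3 := pow_eq_zero_iff (hW.pp.ne_zero) |>.1 h2
    exact sub_eq_zero.1 h3
  have hinv : ∀ μ ∈ P, ∀ k : ℕ, χ (τ^[k] μ) = χ μ := by
    intro μ hμ k
    induction k with
    | zero => rfl
    | succ k ih =>
      rw [Function.iterate_succ_apply', key _ (P_iter hst k hμ), ih, hw, mul_one]
  have hpw : ∀ μ ∈ P, χ μ ^ p = π (mn O b (Nm τ p μ - p • v)) := by
    intro μ hμ
    have h1 : Nm τ p μ - p • v = ∑ k ∈ Finset.range p, (τ^[k] μ - v) := by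
      unfold Nm
      rw [Finset.sum_sub_distrib, Finset.sum_const, Finset.card_range]
    rw [h1, mn_sum fun k _ => hNn _ (P_iter hst k hμ), map_prod]
    rw [Finset.prod_congr rfl (fun k _ => hinv μ hμ k), Finset.prod_const, Finset.card_range]
  intro μ hμ ν hν hN
  have h1 : Nm τ p μ = Nm τ p ν := by
    rw [Nm_sub, sub_eq_zero] at hN
    exact hN
  have h2 : (χ μ - χ ν) ^ p = 0 := by
    rw [sub_pow_char, hpw μ hμ, hpw ν hν, h1, sub_self]
  have h3 := pow_eq_zero_iff (hW.pp.ne_zero) |>.1 h2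
  rw [hχ] at h3
  simp only at h3
  rw [← map_sub] at h3
  exact Ideal.Quotient.eq_zero_iff_mem.1 h3

end Pool.Agent.K3h8.FixZ
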