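import Pool.Agent.K3h8.ExbA

/-!
# EXB: star subdivision of a coloured simplicial fan at the orbit of a lattice point

Brick of the project of helper75 (regular proper models of algebraic tori).
-/

set_option autoImplicit false

namespace Pool.Agent.K3h8.Exb

open Module Filter Topology Pool.Agent.K3h75.TO

lemma evt (A B C : ℚ) (h : A < B) : ∀ᶠ ε in 𝓝[>] (0 : ℚ), A < B + ε * C := by
  have h1 : Tendsto (fun ε : ℚ => B + ε * C) (𝓝[>] 0) (𝓝 (B + 0 * C)) :=
    (Continuous.tendsto (by fun_prop) 0).mono_left nhdsWithin_le_nhds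
  rw [zero_mul, add_zero] at h1
  exact h1.eventually (lt_mem_nhds h)

lemma evt' (A B C : ℚ) (h : A < B) : ∀ᶠ ε in 𝓝[>] (0 : ℚ), A + ε < B + ε * C := by
  filter_upwards [evt A B (C - 1) h] with ε hε
  linarith

/-- The neighbour differs by one generator. -/
lemma nbr {N : Type} [DecidableEq N] {σ s : Finset N} {n : ℕ} (h1 : σ.card = n) (h2 : s.card = n)
    {j : N} (hj : j ∈ σ) (hjs : j ∉ s) (hs : ∀ w ∈ σ, w ≠ j → w ∈ s) :
    ∃ j', j' ∉ σ ∧ j' ∈ s ∧ ∀ w ∈ s, w ≠ j' → w ∈ σ := by
  have h3 : σ.erase j ⊆ s := by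
    intro w hw
    rw [Finset.mem_erase] at hw
    exact hs w hw.2 hw.1
  have h4 : (s \ σ.erase j).card = 1 := by
    rw [Finset.card_sdiff_of_subset h3, Finset.card_erase_of_mem hj, h1, h2]
    have : 0 < n := by rw [← h1]; exact Finset.card_pos.2 ⟨j, hj⟩
    omega
  obtain ⟨j', hj'⟩ := Finset.card_eq_one.1 h4
  have h5 : j' ∈ s \ σ.erase j := by rw [hj']; exact Finset.mem_singleton_self _
  rw [Finset.mem_sdiff, Finset.mem_erase] at h5
  refine ⟨j', fun h => h5.2 ⟨?_, h⟩, h5.1, fun w hw hwj => ?_⟩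
  · rintro rfl
    exact hjs h5.1
  · by_contra hwσ
    have h6 : w ∈ s \ σ.erase j := by
      rw [Finset.mem_sdiff, Finset.mem_erase]
      exact ⟨hw, fun h => hwσ h.2⟩
    rw [hj', Finset.mem_singleton] at h6
    exact hwj h6

theorem t_EXB : S_EXB := by
  intro G N _ _ _ _ _ _
  classical
  refine ⟨mlt, ?_⟩
  intro φ S c h σ₀ hσ₀ hcl
  have : Fintype G := Fintype.ofFinite G
  have hco : ∀ σ ∈ S, ∃ co : N → (N →+ ℚ), (∀ u ∈ σ, co u u = 1) ∧
      (∀ u ∈ σ, ∀ w ∈ σ, u ≠ w → co u w = 0) ∧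
      ∀ (f : N →+ ℚ) (x : N), f x = ∑ u ∈ σ, co u x * f u :=
    fun σ hσ => exists_co (h.card σ hσ) (h.ind σ hσ)
  choose! co co1 co2 co3 using hco
  have hcvx := h.cvx
  choose! V V1 V2 using hcvx
  -- the new lattice point
  obtain ⟨w, hw⟩ : ∃ w, w ∉ AddSubgroup.closure (σ₀ : Set N) := by
    by_contra hcon
    push Not at hcon
    exact hcl (AddSubgroup.eq_top_iff' _ |>.2 hcon)
  set u₀ : N := w - ∑ i ∈ σ₀, ⌊co σ₀ i w⌋ • i with hu₀
  set t : N → ℚ := fun i => co σ₀ i u₀ with htdef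
  have ht : ∀ i ∈ σ₀, t i = Int.fract (co σ₀ i w) := by
    intro i hi
    rw [htdef]
    simp only
    rw [hu₀, map_sub, map_sum, Finset.sum_eq_single i, map_zsmul, co1 σ₀ hσ₀ i hi, zsmul_eq_mul,
      mul_one]
    · rfl
    · intro j hj hji
      rw [map_zsmul, co2 σ₀ hσ₀ i hi j hj (Ne.symm hji), smul_zero]
    · intro hh
      exact absurd hi hh
  have ht1 : ∀ i ∈ σ₀, t i < 1 := fun i hi => by rw [ht i hi]; exact Int.fract_lt_one _
  set T : Finset N := σ₀.filter fun i => t i ≠ 0 with hT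
  have hTσ : ∀ i ∈ T, i ∈ σ₀ := fun i hi => (Finset.mem_filter.1 hi).1
  have htpos : ∀ i ∈ T, 0 < t i := fun i hi => by
    have h1 := (Finset.mem_filter.1 hi).2
    refine lt_of_le_of_ne ?_ (Ne.symm h1)
    rw [ht i (hTσ i hi)]
    exact Int.fract_nonneg _
  have htlt : ∀ i ∈ T, t i < 1 := fun i hi => ht1 i (hTσ i hi)
  have hid : ∀ f : N →+ ℚ, f u₀ = ∑ i ∈ T, t i * f i := by
    intro f
    rw [co3 σ₀ hσ₀ f u₀, hT, Finset.sum_filter]
    refine Finset.sum_congr rfl fun i _ => ?_
    by_cases h0 : t i ≠ 0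
    · rw [if_pos h0]
    · rw [if_neg h0]
      push Not at h0
      change t i * f i = 0
      rw [h0, zero_mul]
  have hTne : T.Nonempty := by
    rw [Finset.nonempty_iff_ne_empty]
    intro hemp
    have h1 : u₀ = 0 := by
      apply sep
      intro f
      rw [hid f, hemp, Finset.sum_empty, map_zero]
    apply hw
    have h2 : w = ∑ i ∈ σ₀, ⌊co σ₀ i w⌋ • i := by
      rw [hu₀] at h1
      exact sub_eq_zero.1 h1
    rw [h2]
    refine AddSubgroup.sum_mem _ fun i hi => AddSubgroup.zsmul_mem _ ?_ _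
    exact AddSubgroup.subset_closure hi
  obtain ⟨i₀, hi₀⟩ := hTne
  have hidg : ∀ (g : G) (f : N →+ ℚ), f (g • u₀) = ∑ i ∈ T, t i * f (g • i) := by
    intro g f
    exact hid (f.comp (DistribSMul.toAddMonoidHom N g))
  set Sub : G → Finset N → Prop := fun g σ => ∀ i ∈ T, g • i ∈ σ with hSub
  set q : ℚ := ∑ i ∈ T, t i * φ i with hq
  have hφT : ∀ (g : G), ∀ i ∈ T, φ (g • i) = φ i := fun g i hi => h.φ_st g σ₀ hσ₀ i (hTσ i hi)
  have hgm : ∀ (g : G), ∃ σ ∈ S, Sub g σ := by
    intro g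
    obtain ⟨σ', h1, h2⟩ := h.st g σ₀ hσ₀
    refine ⟨σ', h1, fun i hi => ?_⟩
    rw [h2, inv_smul_smul]
    exact hTσ i hi
  have hb : ∀ (g : G), ∀ σ ∈ S, ¬ Sub g σ → q < V σ (g • u₀) := by
    intro g σ hσ hs
    rw [hSub] at hs
    push Not at hs
    obtain ⟨i, hi, hiσ⟩ := hs
    obtain ⟨σg, hσg, hsg⟩ := hgm g
    rw [hidg, hq]
    refine Finset.sum_lt_sum ?_ ⟨i, hi, ?_⟩
    · intro j hj
      refine mul_le_mul_of_nonneg_left ?_ (htpos j hj).le
      by_cases hjσ : g • j ∈ σ
      · rw [V1 σ hσ _ hjσ, hφT g j hj]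
      · rw [← hφT g j hj]
        exact (V2 σ hσ σg hσg _ (hsg j hj) hjσ).le
    · refine mul_lt_mul_of_pos_left ?_ (htpos i hi)
      rw [← hφT g i hi]
      exact V2 σ hσ σg hσg _ (hsg i hi) hiσ
  have hcq : ∀ (g : G), ∀ σ ∈ S, Sub g σ → V σ (g • u₀) = q := by
    intro g σ hσ hs
    rw [hidg, hq]
    refine Finset.sum_congr rfl fun i hi => ?_
    rw [V1 σ hσ _ (hs i hi), hφT g i hi]
  have hcoord : ∀ (g : G), ∀ σ ∈ S, Sub g σ → ∀ i ∈ T, co σ (g • i) (g • u₀) = t i := by
    intro g σ hσ hs i hi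
    rw [hidg, Finset.sum_eq_single i, co1 σ hσ _ (hs i hi), mul_one]
    · intro j hj hji
      rw [co2 σ hσ _ (hs i hi) _ (hs j hj) fun hh => hji ((MulAction.injective g hh).symm),
        mul_zero]
    · intro hh
      exact absurd hi hh
  have hnot : ∀ (g : G), ∀ σ ∈ S, g • u₀ ∉ σ := by
    intro g σ hσ hmem
    have h1 : q ≤ φ (g • u₀) := by
      rw [← V1 σ hσ _ hmem]
      by_cases hs : Sub g σ
      · exact (hcq g σ hσ hs).ge
      · exact (hb g σ hσ hs).le
    obtain ⟨σg, hσg, hsg⟩ := hgm g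
    have h2 : g • u₀ ∉ σg := by
      intro h3
      have h4 := hcoord g σg hσg hsg i₀ hi₀
      by_cases h5 : g • i₀ = g • u₀
      · rw [h5, co1 σg hσg _ h3] at h4
        exact absurd h4 (htlt i₀ hi₀).ne'
      · rw [co2 σg hσg _ (hsg i₀ hi₀) _ h3 h5] at h4
        exact absurd h4 (htpos i₀ hi₀).ne
    have h3 := V2 σg hσg σ hσ _ hmem h2
    rw [hcq g σg hσg hsg] at h3
    exact absurd h1 (not_le.2 h3)
  have hcT : ∀ (g : G), ∀ i ∈ T, c (g • i) = c i := fun g i hi => h.c_st g σ₀ hσ₀ i (hTσ i hi)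
  have ha : ∀ (g g' : G), ∀ σ ∈ S, Sub g σ → Sub g' σ → ∀ i ∈ T, g • i = g' • i := by
    intro g g' σ hσ h1 h2 i hi
    exact h.c_inj σ hσ _ (h1 i hi) _ (h2 i hi) (by rw [hcT g i hi, hcT g' i hi])
  have ha' : ∀ (g g' : G), ∀ σ ∈ S, Sub g σ → Sub g' σ → g • u₀ = g' • u₀ := by
    intro g g' σ hσ h1 h2
    apply sep
    intro f
    rw [hidg, hidg]
    exact Finset.sum_congr rfl fun i hi => by rw [ha g g' σ hσ h1 h2 i hi]
  -- the small number
  obtain ⟨ε, hε1, hε2, hε3, hε0⟩ : ∃ ε : ℚ, (∀ σ ∈ S, ∀ g : G, ¬ Sub g σ → q + ε < V σ (g • u₀)) ∧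
      (∀ σ ∈ S, ∀ g : G, ∀ i ∈ T, ∀ g' : G, ¬ Sub g' σ →
        q + ε < V σ (g' • u₀) + ε * (co σ (g • i) (g' • u₀) / t i)) ∧
      (∀ σ ∈ S, ∀ g : G, ∀ i ∈ T, ∀ σ' ∈ S, ∀ w ∈ σ', w ∉ σ →
        φ w < V σ w + ε * (co σ (g • i) w / t i)) ∧ 0 < ε := by
    have e1 : ∀ᶠ ε in 𝓝[>] (0 : ℚ), ∀ σ ∈ S, ∀ g : G, ¬ Sub g σ → q + ε < V σ (g • u₀) := by
      rw [Filter.eventually_all_finset]
      intro σ hσ
      rw [Filter.eventually_all]
      intro g
      by_cases hs : Sub g σ
      · exact Filter.Eventually.of_forall fun ε hh => absurd hs hh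
      · filter_upwards [evt' q _ 0 (hb g σ hσ hs)] with ε hε _
        rwa [mul_zero, add_zero] at hε
    have e2 : ∀ᶠ ε in 𝓝[>] (0 : ℚ), ∀ σ ∈ S, ∀ g : G, ∀ i ∈ T, ∀ g' : G, ¬ Sub g' σ →
        q + ε < V σ (g' • u₀) + ε * (co σ (g • i) (g' • u₀) / t i) := by
      rw [Filter.eventually_all_finset]
      intro σ hσ
      rw [Filter.eventually_all]
      intro g
      rw [Filter.eventually_all_finset]
      intro i hi
      rw [Filter.eventually_all]
      intro g'
      by_cases hs : Sub g' σ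
      · exact Filter.Eventually.of_forall fun ε hh => absurd hs hh
      · filter_upwards [evt' q _ (co σ (g • i) (g' • u₀) / t i) (hb g' σ hσ hs)] with ε hε _
        exact hε
    have e3 : ∀ᶠ ε in 𝓝[>] (0 : ℚ), ∀ σ ∈ S, ∀ g : G, ∀ i ∈ T, ∀ σ' ∈ S, ∀ w ∈ σ', w ∉ σ →
        φ w < V σ w + ε * (co σ (g • i) w / t i) := by
      rw [Filter.eventually_all_finset]
      intro σ hσ
      rw [Filter.eventually_all]
      intro g
      rw [Filter.eventually_all_finset]
      intro i hi
      rw [Filter.eventually_all_finset]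
      intro σ' hσ'
      rw [Filter.eventually_all_finset]
      intro w hw
      by_cases hs : w ∈ σ
      · exact Filter.Eventually.of_forall fun ε hh => absurd hs hh
      · filter_upwards [evt (φ w) _ (co σ (g • i) w / t i) (V2 σ hσ σ' hσ' w hw hs)] with ε hε _
        exact hε
    have e4 : ∀ᶠ ε in 𝓝[>] (0 : ℚ), 0 < ε := self_mem_nhdsWithin
    obtain ⟨ε, h1, h2, h3, h4⟩ := (e1.and (e2.and (e3.and e4))).exists
    exact ⟨ε, h1, h2, h3, h4⟩
  -- a new colour
  obtain ⟨κ, hκ⟩ : ∃ κ : ℕ, ∀ σ ∈ S, ∀ u ∈ σ, c u < κ := by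
    refine ⟨(S.biUnion id).sup c + 1, fun σ hσ u hu => Nat.lt_succ_of_le ?_⟩
    exact Finset.le_sup (f := c) (Finset.mem_biUnion.2 ⟨σ, hσ, hu⟩)
  -- the new cones
  obtain ⟨S', hS'⟩ : ∃ S' : Finset (Finset N), ∀ τ, τ ∈ S' ↔ (τ ∈ S ∧ ∀ g, ¬ Sub g τ) ∨
      ∃ σ ∈ S, ∃ g : G, Sub g σ ∧ ∃ i ∈ T, τ = insert (g • u₀) (σ.erase (g • i)) := by
    refine ⟨(S.filter fun σ => ∀ g : G, ¬ Sub g σ) ∪
      ((S ×ˢ (Finset.univ : Finset G) ×ˢ T).filter fun p => Sub p.2.1 p.1).image
        fun p => insert (p.2.1 • u₀) (p.1.erase (p.2.1 • p.2.2)), fun τ => ?_⟩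
    rw [Finset.mem_union, Finset.mem_filter, Finset.mem_image]
    refine or_congr Iff.rfl ?_
    constructor
    · rintro ⟨⟨σ, g, i⟩, h1, h2⟩
      rw [Finset.mem_filter, Finset.mem_product, Finset.mem_product] at h1
      exact ⟨σ, h1.1.1, g, h1.2, i, h1.1.2.2, h2.symm⟩
    · rintro ⟨σ, hσ, g, hg, i, hi, rfl⟩
      refine ⟨(σ, g, i), ?_, rfl⟩
      rw [Finset.mem_filter, Finset.mem_product, Finset.mem_product]
      exact ⟨⟨hσ, Finset.mem_univ _, hi⟩, hg⟩
  have hnew : ∀ σ ∈ S, ∀ g : G, Sub g σ → ∀ i ∈ T, insert (g • u₀) (σ.erase (g • i)) ∈ S' :=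
    fun σ hσ g hg i hi => (hS' _).2 (Or.inr ⟨σ, hσ, g, hg, i, hi, rfl⟩)
  set φ' : N → ℚ := fun x => if ∃ g : G, x = g • u₀ then q + ε else φ x with hφ'
  set c' : N → ℕ := fun x => if ∃ g : G, x = g • u₀ then κ else c x with hc'
  have hφ1 : ∀ g : G, φ' (g • u₀) = q + ε := fun g => by
    rw [hφ']; exact if_pos ⟨g, rfl⟩
  have hc1 : ∀ g : G, c' (g • u₀) = κ := fun g => by
    rw [hc']; exact if_pos ⟨g, rfl⟩
  have hφ2 : ∀ σ ∈ S, ∀ u ∈ σ, φ' u = φ u := by
    intro σ hσ u hu
    rw [hφ']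
    refine if_neg ?_
    rintro ⟨g, rfl⟩
    exact hnot g σ hσ hu
  have hc2 : ∀ σ ∈ S, ∀ u ∈ σ, c' u = c u := by
    intro σ hσ u hu
    rw [hc']
    refine if_neg ?_
    rintro ⟨g, rfl⟩
    exact hnot g σ hσ hu
  have hgen : ∀ τ ∈ S', ∀ u ∈ τ, (∃ g : G, u = g • u₀) ∨ ∃ σ ∈ S, u ∈ σ := by
    intro τ hτ u hu
    rcases (hS' τ).1 hτ with ⟨h1, -⟩ | ⟨σ, hσ, g, -, i, -, rfl⟩
    · exact Or.inr ⟨τ, h1, hu⟩
    · rcases Finset.mem_insert.1 hu with h1 | h1
      · exact Or.inl ⟨g, h1⟩
      · exact Or.inr ⟨σ, hσ, (Finset.mem_erase.1 h1).2⟩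
  have hcardnew : ∀ σ ∈ S, ∀ g : G, Sub g σ → ∀ i ∈ T,
      (insert (g • u₀) (σ.erase (g • i))).card = finrank ℤ N := by
    intro σ hσ g hg i hi
    rw [Finset.card_insert_of_notMem fun hh => hnot g σ hσ (Finset.mem_erase.1 hh).2,
      Finset.card_erase_of_mem (hg i hi), h.card σ hσ]
    have : 0 < σ.card := Finset.card_pos.2 ⟨_, hg i hi⟩
    rw [h.card σ hσ] at this
    omega
  refine ⟨φ', S', c', ?_, ?_, ?_⟩
  · refine ⟨⟨?_, ?_, ?_, ?_, ?_⟩, ?_, ?_, ?_, ?_⟩
    · -- ne
      obtain ⟨σ, hσ, hs⟩ := hgm 1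
      exact ⟨_, hnew σ hσ 1 hs i₀ hi₀⟩
    · -- card
      intro τ hτ
      rcases (hS' τ).1 hτ with ⟨h1, -⟩ | ⟨σ, hσ, g, hg, i, hi, rfl⟩
      · exact h.card τ h1
      · exact hcardnew σ hσ g hg i hi
    · -- ind
      intro τ hτ
      rcases (hS' τ).1 hτ with ⟨h1, -⟩ | ⟨σ, hσ, g, hg, i, hi, rfl⟩
      · exact h.ind τ h1
      · have hti := htpos i hi
        have hcu := hcoord g σ hσ hg i hi
        have hgi := hg i hi
        refine ind_of_co (fun x => if x = g • u₀ then co σ (g • i) else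
          co σ x - (AddMonoidHom.mulLeft (co σ x (g • u₀) / t i)).comp (co σ (g • i))) ?_ ?_
        · intro x hx
          rcases Finset.mem_insert.1 hx with hx | hx
          · simp only [if_pos hx]
            rw [hx, hcu]
            exact hti.ne'
          · rw [Finset.mem_erase] at hx
            have hne : x ≠ g • u₀ := fun hh => hnot g σ hσ (hh ▸ hx.2)
            simp only [if_neg hne]
            rw [AddMonoidHom.sub_apply, AddMonoidHom.comp_apply, co1 σ hσ x hx.2,
              co2 σ hσ _ hgi x hx.2 hx.1.symm, map_zero, sub_zero]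
            exact one_ne_zero
        · intro x hx y hy hxy
          rcases Finset.mem_insert.1 hx with hx | hx
          · simp only [if_pos hx]
            rcases Finset.mem_insert.1 hy with hy | hy
            · exact absurd (hx.trans hy.symm) hxy
            · rw [Finset.mem_erase] at hy
              exact co2 σ hσ _ hgi y hy.2 hy.1.symm
          · rw [Finset.mem_erase] at hx
            have hne : x ≠ g • u₀ := fun hh => hnot g σ hσ (hh ▸ hx.2)
            simp only [if_neg hne]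
            rw [AddMonoidHom.sub_apply, AddMonoidHom.comp_apply, AddMonoidHom.coe_mulLeft]
            rcases Finset.mem_insert.1 hy with hy | hy
            · rw [hy, hcu, div_mul_cancel₀ _ hti.ne', sub_self]
            · rw [Finset.mem_erase] at hy
              rw [co2 σ hσ x hx.2 y hy.2 hxy, co2 σ hσ _ hgi y hy.2 hy.1.symm, mul_zero, sub_zero]
    · -- cvx
      intro τ hτ
      rcases (hS' τ).1 hτ with ⟨h1, h2⟩ | ⟨σ, hσ, g, hg, i, hi, rfl⟩
      · refine ⟨V τ, fun u hu => ?_, fun σ' hσ' u hu huτ => ?_⟩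
        · rw [V1 τ h1 u hu, hφ2 τ h1 u hu]
        · rcases hgen σ' hσ' u hu with ⟨g, rfl⟩ | ⟨σ, hσ, huσ⟩
          · rw [hφ1]
            exact hε1 τ h1 g (h2 g)
          · rw [hφ2 σ hσ u huσ]
            exact V2 τ h1 σ hσ u huσ huτ
      · have hti := htpos i hi
        have hcu := hcoord g σ hσ hg i hi
        have hgi := hg i hi
        have hv : ∀ x, (V σ + (AddMonoidHom.mulLeft (ε / t i)).comp (co σ (g • i))) x =
            V σ x + ε * (co σ (g • i) x / t i) := by
          intro x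
          rw [AddMonoidHom.add_apply, AddMonoidHom.comp_apply, AddMonoidHom.coe_mulLeft]
          ring
        refine ⟨V σ + (AddMonoidHom.mulLeft (ε / t i)).comp (co σ (g • i)), fun u hu => ?_,
          fun σ' hσ' u hu huτ => ?_⟩
        · rw [hv]
          rcases Finset.mem_insert.1 hu with hu | hu
          · rw [hu, hφ1, hcu, hcq g σ hσ hg, div_self hti.ne', mul_one]
          · rw [Finset.mem_erase] at hu
            rw [co2 σ hσ _ hgi u hu.2 hu.1.symm, zero_div, mul_zero, add_zero, V1 σ hσ u hu.2,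
              hφ2 σ hσ u hu.2]
        · rw [hv]
          rw [Finset.mem_insert, Finset.mem_erase] at huτ
          push Not at huτ
          rcases hgen σ' hσ' u hu with ⟨g', rfl⟩ | ⟨s, hs, hus⟩
          · rw [hφ1]
            refine hε2 σ hσ g i hi g' fun hsub => huτ.1 ?_
            exact ha' g' g σ hσ hsub hg
          · rw [hφ2 s hs u hus]
            by_cases huσ : u ∈ σ
            · have hui : u = g • i := by
                by_contra hne
                exact huτ.2 hne huσ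
              rw [V1 σ hσ u huσ, hui, co1 σ hσ _ hgi]
              have : 0 < ε * (1 / t i) := by positivity
              linarith
            · exact hε3 σ hσ g i hi s hs u hus huσ
    · -- adj
      intro τ hτ j hj
      rcases (hS' τ).1 hτ with ⟨h1, h2⟩ | ⟨σ, hσ, g, hg, i, hi, rfl⟩
      · obtain ⟨s, hs, hjs, hsub⟩ := h.adj τ h1 j hj
        by_cases hex : ∃ g', Sub g' s
        · obtain ⟨g', hg'⟩ := hex
          obtain ⟨j', hj'τ, hj's, hj'⟩ := nbr (h.card τ h1) (h.card s hs) hj hjs hsub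
          have hk : ∃ k ∈ T, g' • k = j' := by
            by_contra hcon
            push Not at hcon
            exact h2 g' fun k hk => hj' _ (hg' k hk) (hcon k hk)
          obtain ⟨k, hk, hkj⟩ := hk
          refine ⟨_, hnew s hs g' hg' k hk, ?_, ?_⟩
          · rw [Finset.mem_insert, Finset.mem_erase]
            rintro (hh | hh)
            · exact hnot g' τ h1 (hh ▸ hj)
            · exact hjs hh.2
          · intro w hw hwj
            rw [Finset.mem_insert, Finset.mem_erase]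
            refine Or.inr ⟨?_, hsub w hw hwj⟩
            rw [hkj]
            rintro rfl
            exact hj'τ hw
        · push Not at hex
          exact ⟨s, (hS' s).2 (Or.inl ⟨hs, hex⟩), hjs, hsub⟩
      · rcases Finset.mem_insert.1 hj with hj | hj
        · -- remove the new generator
          obtain ⟨s, hs, hjs, hsub⟩ := h.adj σ hσ (g • i) (hg i hi)
          obtain ⟨j', hj'σ, hj's, hj'⟩ := nbr (h.card σ hσ) (h.card s hs) (hg i hi) hjs hsub
          by_cases hex : ∃ g', Sub g' s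
          · obtain ⟨g', hg'⟩ := hex
            have hns : ¬ Sub g' σ := by
              intro hsub'
              have h3 := ha g g' σ hσ hg hsub' i hi
              exact hjs (h3 ▸ hg' i hi)
            have hk : ∃ k ∈ T, g' • k = j' := by
              by_contra hcon
              push Not at hcon
              exact hns fun k hk => hj' _ (hg' k hk) (hcon k hk)
            obtain ⟨k, hk, hkj⟩ := hk
            refine ⟨_, hnew s hs g' hg' k hk, ?_, ?_⟩
            · rw [Finset.mem_insert, Finset.mem_erase, hj]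
              rintro (hh | hh)
              · have h4 := hb g' σ hσ hns
                rw [← hh, hcq g σ hσ hg] at h4
                exact lt_irrefl _ h4
              · exact hnot g s hs hh.2
            · intro w hw hwj
              rcases Finset.mem_insert.1 hw with hw | hw
              · exact absurd (hw.trans hj.symm) hwj
              · rw [Finset.mem_erase] at hw
                rw [Finset.mem_insert, Finset.mem_erase]
                refine Or.inr ⟨?_, hsub w hw.2 hw.1⟩
                rw [hkj]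
                rintro rfl
                exact hj'σ hw.2
          · push Not at hex
            refine ⟨s, (hS' s).2 (Or.inl ⟨hs, hex⟩), ?_, ?_⟩
            · rw [hj]
              exact hnot g s hs
            · intro w hw hwj
              rcases Finset.mem_insert.1 hw with hw | hw
              · exact absurd (hw.trans hj.symm) hwj
              · rw [Finset.mem_erase] at hw
                exact hsub w hw.2 hw.1
        · rw [Finset.mem_erase] at hj
          by_cases hk : ∃ k ∈ T, g • k = j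
          · obtain ⟨k, hk, rfl⟩ := hk
            refine ⟨_, hnew σ hσ g hg k hk, ?_, ?_⟩
            · rw [Finset.mem_insert, Finset.mem_erase]
              rintro (hh | hh)
              · exact hnot g σ hσ (hh ▸ hj.2)
              · exact hh.1 rfl
            · intro w hw hwj
              rcases Finset.mem_insert.1 hw with hw | hw
              · exact Finset.mem_insert.2 (Or.inl hw)
              · rw [Finset.mem_erase] at hw
                exact Finset.mem_insert.2 (Or.inr (Finset.mem_erase.2 ⟨hwj, hw.2⟩))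
          · push Not at hk
            obtain ⟨s, hs, hjs, hsub⟩ := h.adj σ hσ j hj.2
            have hgs : Sub g s := fun k hkT => hsub _ (hg k hkT) (hk k hkT)
            refine ⟨_, hnew s hs g hgs i hi, ?_, ?_⟩
            · rw [Finset.mem_insert, Finset.mem_erase]
              rintro (hh | hh)
              · exact hnot g σ hσ (hh ▸ hj.2)
              · exact hjs hh.2
            · intro w hw hwj
              rcases Finset.mem_insert.1 hw with hw | hw
              · exact Finset.mem_insert.2 (Or.inl hw)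
              · rw [Finset.mem_erase] at hw
                exact Finset.mem_insert.2 (Or.inr (Finset.mem_erase.2 ⟨hw.1, hsub w hw.2 hwj⟩))
    · -- st
      intro g τ hτ
      rcases (hS' τ).1 hτ with ⟨h1, h2⟩ | ⟨σ, hσ, g', hg', i, hi, rfl⟩
      · obtain ⟨σ', hσ', h3⟩ := h.st g τ h1
        refine ⟨σ', (hS' σ').2 (Or.inl ⟨hσ', fun g' hg' => h2 (g⁻¹ * g') fun i hi => ?_⟩), h3⟩
        rw [mul_smul, ← h3]
        exact hg' i hi
      · obtain ⟨σ', hσ', h3⟩ := h.st g σ hσ
        have hs : Sub (g * g') σ' := by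
          intro k hk
          rw [h3, mul_smul, inv_smul_smul]
          exact hg' k hk
        refine ⟨_, hnew σ' hσ' (g * g') hs i hi, fun w => ?_⟩
        rw [Finset.mem_insert, Finset.mem_erase, Finset.mem_insert, Finset.mem_erase, h3,
          mul_smul, mul_smul, inv_smul_eq_iff, Ne, Ne, inv_smul_eq_iff]
    · -- φ_st
      intro g τ hτ u hu
      rcases hgen τ hτ u hu with ⟨g', rfl⟩ | ⟨σ, hσ, huσ⟩
      · rw [← mul_smul, hφ1, hφ1]
      · obtain ⟨σ', hσ', h3⟩ := h.st g σ hσ
        have : g • u ∈ σ' := by rw [h3, inv_smul_smul]; exact huσ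
        rw [hφ2 σ hσ u huσ, hφ2 σ' hσ' _ this, h.φ_st g σ hσ u huσ]
    · -- c_st
      intro g τ hτ u hu
      rcases hgen τ hτ u hu with ⟨g', rfl⟩ | ⟨σ, hσ, huσ⟩
      · rw [← mul_smul, hc1, hc1]
      · obtain ⟨σ', hσ', h3⟩ := h.st g σ hσ
        have : g • u ∈ σ' := by rw [h3, inv_smul_smul]; exact huσ
        rw [hc2 σ hσ u huσ, hc2 σ' hσ' _ this, h.c_st g σ hσ u huσ]
    · -- c_inj
      intro τ hτ u hu u' hu' huu
      rcases (hS' τ).1 hτ with ⟨h1, h2⟩ | ⟨σ, hσ, g, hg, i, hi, rfl⟩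
      · rw [hc2 τ h1 u hu, hc2 τ h1 u' hu'] at huu
        exact h.c_inj τ h1 u hu u' hu' huu
      · rcases Finset.mem_insert.1 hu with hu | hu
        · rcases Finset.mem_insert.1 hu' with hu' | hu'
          · rw [hu, hu']
          · rw [Finset.mem_erase] at hu'
            rw [hu, hc1, hc2 σ hσ u' hu'.2] at huu
            exact absurd huu (hκ σ hσ u' hu'.2).ne'
        · rw [Finset.mem_erase] at hu
          rcases Finset.mem_insert.1 hu' with hu' | hu'
          · rw [hu', hc1, hc2 σ hσ u hu.2] at huu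
            exact absurd huu (hκ σ hσ u hu.2).ne
          · rw [Finset.mem_erase] at hu'
            rw [hc2 σ hσ u hu.2, hc2 σ hσ u' hu'.2] at huu
            exact h.c_inj σ hσ u hu.2 u' hu'.2 huu
  · -- σ₀ is not a cone
    intro h1
    rcases (hS' σ₀).1 h1 with ⟨-, h2⟩ | ⟨σ, hσ, g, hg, i, hi, h2⟩
    · refine h2 1 fun i hi => ?_
      rw [one_smul]
      exact hTσ i hi
    · refine hnot g σ₀ hσ₀ ?_
      rw [h2]
      exact Finset.mem_insert_self _ _
  · intro τ hτ
    rcases (hS' τ).1 hτ with ⟨h1, -⟩ | ⟨σ, hσ, g, hg, i, hi, rfl⟩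
    · exact Or.inl h1
    · refine Or.inr ⟨σ, hσ, ?_, ?_⟩
      · intro htop
        have h1 : g • u₀ ∈ AddSubgroup.closure (σ : Set N) := by rw [htop]; trivial
        have h2 : ∀ x ∈ AddSubgroup.closure (σ : Set N), ∃ z : ℤ, co σ (g • i) x = z := by
          intro x hx
          induction hx using AddSubgroup.closure_induction with
          | mem x hx =>
            by_cases hxi : g • i = x
            · exact ⟨1, by rw [← hxi, co1 σ hσ _ (hg i hi), Int.cast_one]⟩
            · exact ⟨0, by rw [co2 σ hσ _ (hg i hi) x hx hxi, Int.cast_zero]⟩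
          | zero => exact ⟨0, by rw [map_zero, Int.cast_zero]⟩
          | add x y _ _ hx hy =>
            obtain ⟨a, ha⟩ := hx
            obtain ⟨b, hb⟩ := hy
            exact ⟨a + b, by rw [map_add, ha, hb, Int.cast_add]⟩
          | neg x _ hx =>
            obtain ⟨a, ha⟩ := hx
            exact ⟨-a, by rw [map_neg, ha, Int.cast_neg]⟩
        obtain ⟨z, hz⟩ := h2 _ h1
        rw [hcoord g σ hσ hg i hi] at hz
        have h3 := htpos i hi
        have h4 := htlt i hi
        rw [hz] at h3 h4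
        have h5 : (0 : ℤ) < z := by exact_mod_cast h3
        have h6 : z < (1 : ℤ) := by exact_mod_cast h4
        omega
      · refine mlt_lt (h.card σ hσ) (h.ind σ hσ) (co σ) (co3 σ hσ) (i := g • i) (w := g • u₀)
          (hg i hi) (hnot g σ hσ) ?_ (hcardnew σ hσ g hg i hi) ?_ ?_
        · intro y
          rw [Finset.mem_insert, Finset.mem_erase]
          tauto
        · rw [hcoord g σ hσ hg i hi]
          exact htpos i hi
        · rw [hcoord g σ hσ hg i hi]
          exact htlt i hi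

end Pool.Agent.K3h8.Exb
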