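import Pool.Agent.K3h75.TO.StmE

/-!
# EXB, part A: coordinates with respect to a simplicial cone, multiplicity
-/

set_option autoImplicit false

namespace Pool.Agent.K3h8.Exb

open Module

section coord

variable {N : Type} [AddCommGroup N] [Module.Free ℤ N] [Module.Finite ℤ N]

/-- The embedding in a rational vector space. -/
noncomputable def emb (N : Type) [AddCommGroup N] [Module.Free ℤ N] [Module.Finite ℤ N] :
    N →ₗ[ℤ] (Fin (finrank ℤ N) → ℚ) where
  toFun x i := ((finBasis ℤ N).repr x i : ℚ)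
  map_add' x y := by
    ext i
    simp
  map_smul' r x := by
    ext i
    simp

lemma emb_inj : LinearMap.ker (emb N) = ⊥ := by
  rw [LinearMap.ker_eq_bot']
  intro x hx
  apply (finBasis ℤ N).repr.map_eq_zero_iff.1
  ext i
  have h := congrFun hx i
  change (((finBasis ℤ N).repr x i : ℤ) : ℚ) = 0 at h
  exact_mod_cast h

lemma sep {x y : N} (h : ∀ f : N →+ ℚ, f x = f y) : x = y := by
  apply (LinearMap.ker_eq_bot.1 (emb_inj (N := N)))
  ext i
  exact h ((Pi.evalAddMonoidHom (fun _ : Fin (finrank ℤ N) => ℚ) i).comp (emb N).toAddMonoidHom)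

/-- The extension of a functional. -/
lemma ext_fun (f : N →+ ℚ) : ∃ F : (Fin (finrank ℤ N) → ℚ) →ₗ[ℚ] ℚ, ∀ x, F (emb N x) = f x := by
  refine ⟨Fintype.linearCombination ℚ (fun i => f (finBasis ℤ N i)), fun x => ?_⟩
  rw [Fintype.linearCombination_apply]
  conv_rhs => rw [← (finBasis ℤ N).sum_repr x, map_sum]
  refine Finset.sum_congr rfl fun i _ => ?_
  rw [map_zsmul, zsmul_eq_mul]
  rfl

theorem exists_co {σ : Finset N} (hc : σ.card = finrank ℤ N)
    (hi : LinearIndependent ℤ (fun u : {u // u ∈ σ} => (u : N))) :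
    ∃ co : N → (N →+ ℚ), (∀ u ∈ σ, co u u = 1) ∧ (∀ u ∈ σ, ∀ w ∈ σ, u ≠ w → co u w = 0) ∧
      ∀ (f : N →+ ℚ) (x : N), f x = ∑ u ∈ σ, co u x * f u := by
  classical
  have h1 := hi.map' (emb N) emb_inj
  have h2 : LinearIndependent ℚ ((emb N) ∘ fun u : {u // u ∈ σ} => (u : N)) :=
    (LinearIndependent.iff_fractionRing ℤ ℚ).1 h1
  have h3 : Submodule.span ℚ (Set.range ((emb N) ∘ fun u : {u // u ∈ σ} => (u : N))) = ⊤ := by
    apply h2.span_eq_top_of_card_eq_finrank'
    rw [Fintype.card_coe, hc, finrank_fin_fun]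
  set B : Basis {u // u ∈ σ} ℚ (Fin (finrank ℤ N) → ℚ) := Basis.mk h2 h3.ge with hB
  have hBa : ∀ u : {u // u ∈ σ}, B u = emb N u := fun u => by
    rw [hB, Basis.mk_apply]; rfl
  set co : N → (N →+ ℚ) := fun u => if h : u ∈ σ then
    (B.coord ⟨u, h⟩).toAddMonoidHom.comp (emb N).toAddMonoidHom else 0 with hco
  have hca : ∀ u (h : u ∈ σ) x, co u x = B.repr (emb N x) ⟨u, h⟩ := by
    intro u h x
    rw [hco]
    simp only [dif_pos h]
    rfl
  refine ⟨co, ?_, ?_, ?_⟩
  · intro u hu
    rw [hca u hu, ← hBa ⟨u, hu⟩, B.repr_self, Finsupp.single_eq_same]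
  · intro u hu w hw huw
    rw [hca u hu, ← hBa ⟨w, hw⟩, B.repr_self, Finsupp.single_apply, if_neg]
    intro h
    exact huw (congrArg Subtype.val h).symm
  · intro f x
    obtain ⟨F, hF⟩ := ext_fun f
    rw [← hF, ← B.sum_repr (emb N x), map_sum, ← Finset.sum_coe_sort σ]
    refine Finset.sum_congr rfl fun u _ => ?_
    rw [map_smul, smul_eq_mul, hBa, hF, hca u.1 u.2]

/-- Independence from dual functionals. -/
theorem ind_of_co {σ : Finset N} (co : N → (N →+ ℚ)) (h1 : ∀ u ∈ σ, co u u ≠ 0)
    (h2 : ∀ u ∈ σ, ∀ w ∈ σ, u ≠ w → co u w = 0) :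
    LinearIndependent ℤ (fun u : {u // u ∈ σ} => (u : N)) := by
  classical
  rw [Fintype.linearIndependent_iff]
  intro g hg u
  have h3 := congrArg (co u) hg
  rw [map_zero, map_sum, Finset.sum_eq_single u] at h3
  · rw [map_zsmul, zsmul_eq_mul, mul_eq_zero] at h3
    rcases h3 with h3 | h3
    · exact_mod_cast h3
    · exact absurd h3 (h1 u u.2)
  · intro w _ hw
    rw [map_zsmul, h2 u u.2 w w.2 (fun h => hw (Subtype.ext h).symm), smul_zero]
  · intro h
    exact absurd (Finset.mem_univ u) h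

/-- An enumeration of the generators. -/
noncomputable def enu (σ : Finset N) (hc : σ.card = finrank ℤ N) : Fin (finrank ℤ N) → N :=
  fun k => ((Finset.equivFinOfCardEq hc).symm k : N)

open Classical in
/-- The multiplicity of a cone. -/
noncomputable def mlt (σ : Finset N) : ℕ :=
  if hc : σ.card = finrank ℤ N then ((finBasis ℤ N).det (enu σ hc)).natAbs else 0

lemma enu_mem (σ : Finset N) (hc : σ.card = finrank ℤ N) (k) : enu σ hc k ∈ σ :=
  ((Finset.equivFinOfCardEq hc).symm k).2

lemma enu_inj (σ : Finset N) (hc : σ.card = finrank ℤ N) : Function.Injective (enu σ hc) :=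
  Subtype.val_injective.comp (Finset.equivFinOfCardEq hc).symm.injective

lemma mlt_eq (σ : Finset N) (hc : σ.card = finrank ℤ N) (f : Fin (finrank ℤ N) → N)
    (hf : Function.Injective f) (hfm : ∀ k, f k ∈ σ) :
    mlt σ = ((finBasis ℤ N).det f).natAbs := by
  classical
  unfold mlt
  rw [dif_pos hc]
  set e := Finset.equivFinOfCardEq hc with he
  set π : Fin (finrank ℤ N) → Fin (finrank ℤ N) := fun k => e ⟨f k, hfm k⟩ with hπ
  have hπi : Function.Injective π := by
    intro a b hab
    have := e.injective hab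
    exact hf (congrArg Subtype.val this)
  set P : Equiv.Perm (Fin (finrank ℤ N)) :=
    Equiv.ofBijective π (Finite.injective_iff_bijective.1 hπi) with hP
  have h1 : f = enu σ hc ∘ P := by
    funext k
    change f k = (e.symm (e ⟨f k, hfm k⟩) : N)
    rw [Equiv.symm_apply_apply]
  rw [h1, AlternatingMap.map_perm]
  rcases Int.units_eq_one_or (Equiv.Perm.sign P) with h | h
  · rw [h, one_smul]
  · rw [h, Units.neg_smul, one_smul, Int.natAbs_neg]

lemma det_ne_zero {σ : Finset N} (hc : σ.card = finrank ℤ N)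
    (hi : LinearIndependent ℤ (fun u : {u // u ∈ σ} => (u : N)))
    (f : Fin (finrank ℤ N) → N) (hf : Function.Injective f) (hfm : ∀ k, f k ∈ σ) :
    (finBasis ℤ N).det f ≠ 0 := by
  classical
  obtain ⟨co, h1, h2, h3⟩ := exists_co hc hi
  intro h0
  set A : Matrix (Fin (finrank ℤ N)) (Fin (finrank ℤ N)) ℚ :=
    Matrix.of fun k j => co (f k) (finBasis ℤ N j) with hA
  set C : Matrix (Fin (finrank ℤ N)) (Fin (finrank ℤ N)) ℚ :=
    ((finBasis ℤ N).toMatrix f).map fun z : ℤ => (z : ℚ) with hC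
  have h4 : A * C = 1 := by
    ext k k'
    rw [Matrix.mul_apply]
    have h5 : ∑ j, A k j * C j k' = co (f k) (f k') := by
      conv_rhs => rw [← (finBasis ℤ N).sum_repr (f k'), map_sum]
      refine Finset.sum_congr rfl fun j _ => ?_
      rw [map_zsmul, zsmul_eq_mul, mul_comm]
      rfl
    rw [h5, Matrix.one_apply]
    split_ifs with hk
    · rw [hk]; exact h1 _ (hfm _)
    · exact h2 _ (hfm _) _ (hfm _) fun h => hk (hf h)
  have h6 : C.det = 0 := by
    rw [hC, ← Int.cast_det, ← Basis.det_apply, h0, Int.cast_zero]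
  have h7 := congrArg Matrix.det h4
  rw [Matrix.det_mul, h6, mul_zero, Matrix.det_one] at h7
  exact zero_ne_one h7

/-- The multiplicity of the subdivided cone. -/
theorem mlt_lt {σ σ' : Finset N} (hc : σ.card = finrank ℤ N)
    (hi : LinearIndependent ℤ (fun u : {u // u ∈ σ} => (u : N)))
    (co : N → (N →+ ℚ)) (h3 : ∀ (f : N →+ ℚ) (x : N), f x = ∑ u ∈ σ, co u x * f u)
    {i w : N} (hiσ : i ∈ σ) (hw : w ∉ σ)
    (hσ' : ∀ y, y ∈ σ' ↔ y = w ∨ (y ∈ σ ∧ y ≠ i)) (hc' : σ'.card = finrank ℤ N)
    (ht0 : 0 < co i w) (ht1 : co i w < 1) : mlt σ' < mlt σ := by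
  classical
  set f := enu σ hc with hf
  set b := finBasis ℤ N with hb
  obtain ⟨k, hk⟩ : ∃ k, f k = i := by
    refine ⟨Finset.equivFinOfCardEq hc ⟨i, hiσ⟩, ?_⟩
    change ((Finset.equivFinOfCardEq hc).symm (Finset.equivFinOfCardEq hc ⟨i, hiσ⟩) : N) = i
    rw [Equiv.symm_apply_apply]
  have hfi := enu_inj σ hc
  have hfm := enu_mem σ hc
  have hg : mlt σ' = (b.det (Function.update f k w)).natAbs := by
    refine mlt_eq σ' hc' _ ?_ ?_
    · intro a c hac
      by_cases ha : a = k
      · by_cases hcc : c = k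
        · rw [ha, hcc]
        · rw [ha, Function.update_self, Function.update_of_ne hcc] at hac
          exact absurd (hac ▸ hfm c) hw
      · by_cases hcc : c = k
        · rw [hcc, Function.update_self, Function.update_of_ne ha] at hac
          exact absurd (hac ▸ hfm a) hw
        · rw [Function.update_of_ne hcc, Function.update_of_ne ha] at hac
          exact hfi hac
    · intro a
      rw [hσ']
      by_cases ha : a = k
      · rw [ha, Function.update_self]; exact Or.inl rfl
      · rw [Function.update_of_ne ha]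
        exact Or.inr ⟨hfm a, fun h => ha (hfi (h.trans hk.symm))⟩
  have hg0 : mlt σ = (b.det f).natAbs := mlt_eq σ hc f hfi hfm
  have hd := det_ne_zero hc hi f hfi hfm
  -- the determinant as a functional
  set D : N →+ ℚ :=
    { toFun := fun x => ((b.det (Function.update f k x) : ℤ) : ℚ)
      map_zero' := by rw [AlternatingMap.map_update_zero, Int.cast_zero]
      map_add' := fun x y => by rw [AlternatingMap.map_update_add, Int.cast_add] } with hD
  have hDa : ∀ x, D x = ((b.det (Function.update f k x) : ℤ) : ℚ) := fun x => rfl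
  have h4 := h3 D w
  have h5 : ∑ u ∈ σ, co u w * D u = co i w * D i := by
    refine Finset.sum_eq_single i ?_ ?_
    · intro u hu hui
      obtain ⟨j, hj⟩ : ∃ j, f j = u := by
        refine ⟨Finset.equivFinOfCardEq hc ⟨u, hu⟩, ?_⟩
        change ((Finset.equivFinOfCardEq hc).symm (Finset.equivFinOfCardEq hc ⟨u, hu⟩) : N) = u
        rw [Equiv.symm_apply_apply]
      have hjk : j ≠ k := by
        rintro rfl
        exact hui (hj.symm.trans hk)
      rw [hDa, AlternatingMap.map_eq_zero_of_eq b.det (Function.update f k u) (i := k) (j := j)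
        (by rw [Function.update_self, Function.update_of_ne hjk, hj]) hjk.symm, Int.cast_zero,
        mul_zero]
    · intro h
      exact absurd hiσ h
  have h6 : D i = ((b.det f : ℤ) : ℚ) := by
    rw [hDa, ← hk, Function.update_eq_self]
  rw [h5, h6, hDa] at h4
  rw [hg, hg0]
  have h7 : ((b.det (Function.update f k w)).natAbs : ℚ) = co i w * ((b.det f).natAbs : ℚ) := by
    rw [Nat.cast_natAbs, Nat.cast_natAbs, Int.cast_abs, Int.cast_abs, h4, abs_mul,
      abs_of_pos ht0]
  have h8 : (0 : ℚ) < ((b.det f).natAbs : ℚ) := by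
    exact_mod_cast Int.natAbs_pos.2 hd
  have h9 : ((b.det (Function.update f k w)).natAbs : ℚ) < ((b.det f).natAbs : ℚ) := by
    rw [h7]
    nlinarith
  exact_mod_cast h9

end coord

end Pool.Agent.K3h8.Exb
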