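import Pool.Agent.K3h75.FF.Stm4
import Pool.Agent.Y794.H.Gvw

/-! FF bricks FORMSK and INV. -/

set_option autoImplicit false

namespace Pool.Agent.K3h8.FormsK

open Pool.Agent.Y223.G Pool.Agent.K3h75.FF
open Pool.Agent.Y25.G (MN_z)
open Pool.Agent.Y794.H

theorem t_FORMSK : S_EXF → S_FORMSK := by
  classical
  intro hEXF κ K G _ _ _ _ _ ρ m z hz0 hperm
  obtain ⟨e⟩ : Nonempty (Fin (Nat.card G - 1 + 1) ≃ G) := by
    have h1 : 0 < Nat.card G := Nat.card_pos
    have h2 : Nat.card G - 1 + 1 = Nat.card G := by omega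
    rw [h2]
    exact ⟨(Finite.equivFin G).symm⟩
  let _ : Fintype G := Fintype.ofFinite G
  obtain ⟨dq, P, hdq, hfin, hFS, hEV⟩ := hEXF κ K m z hz0 (Nat.card G - 1)
  obtain ⟨Nm, hNm⟩ : ∃ Nm : K → K, ∀ F, Nm F = ∏ g : G, ρ g F := ⟨_, fun F => rfl⟩
  have hNinv : ∀ (h : G) F, ρ h (Nm F) = Nm F := by
    intro h F
    rw [hNm, map_prod]
    refine Fintype.prod_equiv (Equiv.mulLeft h) _ _ fun g => ?_
    rw [Equiv.coe_mulLeft, map_mul, AlgEquiv.mul_apply]
  have hN0 : ∀ F, F ≠ 0 → Nm F ≠ 0 := by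
    intro F hF
    rw [hNm]
    exact Finset.prod_ne_zero_iff.2 fun g _ h => hF ((map_eq_zero _).1 h)
  have hρFS : ∀ (g : G) (d : ℕ) (x : K), x ∈ FS κ z d → ρ g x ∈ FS κ z d := by
    intro g d x hx
    exact semi_FS z ((ρ g : K ≃ₐ[κ] K) : K →+* K) (fun o => o) (fun o => (ρ g).commutes o)
      (fun j => by
        obtain ⟨i, hi⟩ := hperm g j
        change ρ g (z j) ∈ _
        rw [hi]
        exact Submodule.subset_span ⟨i, rfl⟩) d hx
  have hcard : 1 ≤ Fintype.card G := Fintype.card_pos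
  have hNFS : ∀ (d : ℕ) (F : K), F ∈ FS κ z d → Nm F ∈ FS κ z (d * Fintype.card G) := by
    intro d F hF
    rw [hNm]
    have h1 := FS_prod (O := κ) z (Finset.univ : Finset G) (fun g => ρ g F) (fun _ => d)
      (fun g _ => hρFS g d F hF)
    rwa [Finset.sum_const, Finset.card_univ, smul_eq_mul, mul_comm] at h1
  refine ⟨dq * Fintype.card G, Nm '' {F ∈ P | F ≠ 0}, ?_,
    (hfin.subset (Set.sep_subset _ _)).image _, ?_, ?_⟩
  · exact Nat.one_le_iff_ne_zero.2 (Nat.mul_ne_zero (by omega) (by omega))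
  · rintro _ ⟨F, ⟨hF, hF0⟩, rfl⟩
    exact ⟨hNFS _ _ (hFS F hF), hN0 _ hF0, fun g => hNinv g F⟩
  intro V hκV
  obtain ⟨F, hF, hF0, hx⟩ := hEV
    (fun i => V.comap ((ρ (e i) : K ≃ₐ[κ] K) : K →+* K))
    (fun i c => by
      rw [ValuationSubring.mem_comap]
      change ρ (e i) (algebraMap κ K c) ∈ V
      rw [(ρ (e i)).commutes]
      exact hκV c)
  refine ⟨Nm F, ⟨F, ⟨hF, hF0⟩, rfl⟩, ?_⟩
  have hgen1 : ∀ (g : G), ∀ y ∈ FS κ z dq, ρ g (y / F) ∈ V := by
    intro g y hy
    unfold FS at hy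
    induction hy using Submodule.span_induction with
    | mem x hx1 =>
      have h3 := hx (e.symm g) x hx1
      rw [e.apply_symm_apply] at h3
      exact h3
    | zero => rw [zero_div, map_zero]; exact V.zero_mem
    | add x y _ _ hx hy => rw [add_div, map_add]; exact V.add_mem _ _ hx hy
    | smul c x _ hx =>
      rw [Algebra.smul_def, mul_div_assoc, map_mul, (ρ g).commutes]
      exact V.mul_mem _ _ (hκV _) hx
  have hgen2 : ∀ (g : G), ∀ y ∈ MN z dq, y / ρ g F ∈ V := by
    intro g y hy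
    have h1 := hgen1 g (ρ g⁻¹ y) (hρFS g⁻¹ _ y (Submodule.subset_span hy))
    have h2 : ρ g (ρ g⁻¹ y / F) = y / ρ g F := by
      rw [map_div₀, ← AlgEquiv.mul_apply, ← map_mul, mul_inv_cancel, map_one, AlgEquiv.one_apply]
    rwa [h2] at h1
  intro y hy
  rw [hNm]
  exact MN_div_prod z dq (fun g : G => ρ g F) V hgen2 Finset.univ y
    (by rw [Finset.card_univ]; exact hy)

theorem t_INV : S_INV := by
  intro O M G _ _ _ _ _ _ _ ρ T hcom 𝔓 hmax hbot
  let v : IsDedekindDomain.HeightOneSpectrum O := ⟨𝔓, hmax.isPrime, hbot⟩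
  have hprime := hmax.isPrime
  refine ⟨(v.valuation M).valuationSubring, fun o => v.valuation_le_one o, fun g => ?_⟩
  have hmem : ∀ x : M, x ∈ (v.valuation M).valuationSubring → v.valuation M x < 1 →
      ∃ e : (v.valuation M).valuationSubring,
        e ∈ IsLocalRing.maximalIdeal (v.valuation M).valuationSubring ∧ (e : M) = x := by
    intro x hx hlt
    exact ⟨⟨x, hx⟩, ((v.valuation M).mem_maximalIdeal_iff).2 hlt, rfl⟩
  constructor
  · intro h y hy
    obtain ⟨a, ⟨b, hb⟩, hab⟩ := v.exists_primeCompl_mul_eq_of_integer y hy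
    have hb' : b ∉ 𝔓 := hb
    have hab' : y * algebraMap O M b = algebraMap O M a := hab
    have hTb : T g b ∉ 𝔓 := by
      intro hcon
      have := 𝔓.sub_mem hcon (h b)
      rw [sub_sub_cancel] at this
      exact hb' this
    have hb0 : algebraMap O M b ≠ 0 := by
      intro h0
      rw [map_eq_zero_iff _ (IsFractionRing.injective O M)] at h0
      exact hb' (h0 ▸ 𝔓.zero_mem)
    have hTb0 : algebraMap O M (T g b) ≠ 0 := by
      intro h0
      rw [map_eq_zero_iff _ (IsFractionRing.injective O M)] at h0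
      exact hTb (h0 ▸ 𝔓.zero_mem)
    have e1 : ρ g y * algebraMap O M (T g b) = algebraMap O M (T g a) := by
      rw [← hcom, ← map_mul, hab', hcom]
    have e2 : (ρ g y - y) * (algebraMap O M (T g b) * algebraMap O M b) =
        algebraMap O M ((T g a - a) * b - a * (T g b - b)) := by
      simp only [map_sub, map_mul]
      linear_combination algebraMap O M b * e1 - algebraMap O M (T g b) * hab'
    have hval : v.valuation M (ρ g y - y) < 1 := by
      have h1 : v.valuation M (algebraMap O M (T g b)) = 1 :=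
        (IsDedekindDomain.HeightOneSpectrum.valuation_eq_one_iff_notMem (K := M) v).2 hTb
      have h2 : v.valuation M (algebraMap O M b) = 1 :=
        (IsDedekindDomain.HeightOneSpectrum.valuation_eq_one_iff_notMem (K := M) v).2 hb'
      have h3 := congrArg (v.valuation M) e2
      rw [map_mul, map_mul, h1, h2, one_mul, mul_one] at h3
      rw [h3]
      refine (v.valuation_lt_one_iff_mem (K := M) _).2 ?_
      exact 𝔓.sub_mem (𝔓.mul_mem_right _ (h a)) (𝔓.mul_mem_left _ (h b))
    exact hmem _ (le_of_lt hval) hval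
  · intro h o
    obtain ⟨e, he, he2⟩ := h (algebraMap O M o) (v.valuation_le_one o)
    have h1 := ((v.valuation M).mem_maximalIdeal_iff).1 he
    rw [he2, hcom, ← map_sub] at h1
    exact (v.valuation_lt_one_iff_mem (K := M) _).1 h1

end Pool.Agent.K3h8.FormsK
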