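import Pool.Agent.K3h75.FF.Stm2
import Pool.Agent.K3h75.FF.Ram1

/-! FF brick NUMF: the numerical data at a wild prime of a Dedekind domain. -/

set_option autoImplicit false

namespace Pool.Agent.K3h8.NumF

open Pool.Agent.K3h75.FF Pool.Agent.R383.TM

theorem t_NUMF : S_NUMF := by
  classical
  intro k O K G _ _ _ _ _ _ _ _ _ _ _ _ ρ T h 𝔓 hmax g hg1 hgw
  obtain ⟨hI, hW⟩ := hgw
  have hbot : 𝔓 ≠ ⊥ := by
    intro hb
    apply hg1
    apply h.fai
    intro o
    have := hI o
    rw [hb, Ideal.mem_bot, sub_eq_zero] at this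
    exact this
  obtain ⟨p, τ, hp, hτp, hτ⟩ := h.inr 𝔓 hmax hbot
  have hgτ := hτ g hI hW
  have hgp : g ^ p = 1 := by
    obtain ⟨e, rfl⟩ := Subgroup.mem_zpowers_iff.1 hgτ
    rw [← zpow_natCast, ← zpow_mul, mul_comm, zpow_mul, zpow_natCast, hτp, one_zpow]
  have : Fact p.Prime := ⟨hp⟩
  have hog : orderOf g = p := orderOf_eq_prime hgp hg1
  have hτ1 : τ ≠ 1 := by
    rintro rfl
    rw [Subgroup.zpowers_one_eq_bot, Subgroup.mem_bot] at hgτ
    exact hg1 hgτ
  have hoτ : orderOf τ = p := orderOf_eq_prime hτp hτ1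
  have hz : Subgroup.zpowers g = Subgroup.zpowers τ := by
    apply Subgroup.eq_of_le_of_card_ge
    · rw [Subgroup.zpowers_le]; exact hgτ
    · rw [Nat.card_zpowers, Nat.card_zpowers, hog, hoτ]
  obtain ⟨l, hl1, hl2, hl3, hl4⟩ := ram1E t_RAM1F h hp hgp hg1 hmax hbot hI
  refine ⟨p, l, hp, ?_, hbot, hgp, hl3, hl1, hl2, ?_⟩
  · rcases Nat.eq_zero_or_pos l with h0 | h0
    · exfalso
      subst h0
      obtain ⟨π, hπ, hπ2⟩ := hl2
      exact hπ2 (hW π hπ)
    · exact h0
  · intro x
    constructor
    · rintro ⟨hx1, hxI, hxW⟩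
      have h4 : x ∈ Subgroup.zpowers g := by rw [hz]; exact hτ x hxI hxW
      rw [mem_zpowers_iff_mem_range_orderOf, Finset.mem_image] at h4
      obtain ⟨e, he, heq⟩ := h4
      rw [hog, Finset.mem_range] at he
      refine ⟨e, ?_, he, heq.symm⟩
      rcases Nat.eq_zero_or_pos e with h6 | h6
      · exfalso
        rw [h6, pow_zero] at heq
        exact hx1 heq.symm
      · exact h6
    · rintro ⟨e, he1, he2, rfl⟩
      refine ⟨?_, ?_, ?_⟩
      · intro h5
        have h6 := orderOf_dvd_of_pow_eq_one h5
        rw [hog] at h6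
        exact absurd (Nat.le_of_dvd (by omega) h6) (by omega)
      · have key : ∀ (n : ℕ) (o : O), T (g ^ n) o - o ∈ 𝔓 := by
          intro n
          induction n with
          | zero => intro o; simp
          | succ n ih =>
            intro o
            have e1 : T (g ^ (n + 1)) o = T g (T (g ^ n) o) := by
              rw [pow_succ', map_mul]; rfl
            rw [e1]
            have h1 := hI (T (g ^ n) o)
            have h2 := ih o
            have : T g (T (g ^ n) o) - o = (T g (T (g ^ n) o) - T (g ^ n) o) +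
              (T (g ^ n) o - o) := by ring
            rw [this]
            exact 𝔓.add_mem h1 h2
        exact key e
      · have key : ∀ (n : ℕ) (o : O), o ∈ 𝔓 → T (g ^ n) o ∈ 𝔓 ∧ T (g ^ n) o - o ∈ 𝔓 ^ 2 := by
          intro n
          induction n with
          | zero => intro o ho; simp [ho]
          | succ n ih =>
            intro o ho
            have e1 : T (g ^ (n + 1)) o = T g (T (g ^ n) o) := by
              rw [pow_succ', map_mul]; rfl
            rw [e1]
            obtain ⟨h1, h2⟩ := ih o ho
            have h3 := hW _ h1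
            refine ⟨?_, ?_⟩
            · have : T g (T (g ^ n) o) = (T g (T (g ^ n) o) - T (g ^ n) o) + T (g ^ n) o := by ring
              rw [this]
              exact 𝔓.add_mem (hI _) h1
            · have : T g (T (g ^ n) o) - o = (T g (T (g ^ n) o) - T (g ^ n) o) +
                (T (g ^ n) o - o) := by ring
              rw [this]
              exact (𝔓 ^ 2).add_mem h3 h2
        exact fun o ho => (key e o ho).2

end Pool.Agent.K3h8.NumF
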